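import Pool.Agent.H49.EW.Nine

/-!
The conjectured even-Wilf-equivalence of 13524 and 42531 fails at size 14; hence not all four
conjectured even-Wilf-equivalences hold.
-/

namespace Pool.Agent.Results.MP_b0fbe2_co.FourthEquivalenceFails

open Equiv

/-- the permutation `π` contains the pattern `σ` (given in one-line form) -/
def Contains {k n : ℕ} (σ : Fin k → ℕ) (π : Perm (Fin n)) : Prop :=
  ∃ f : Fin k → Fin n, StrictMono f ∧ ∀ a b : Fin k, π (f a) < π (f b) ↔ σ a < σ b

/-- the number of even permutations of size `n` that avoid the pattern `σ` -/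
noncomputable def E (n : ℕ) {k : ℕ} (σ : Fin k → ℕ) : ℕ :=
  Nat.card {π : Perm (Fin n) // Perm.sign π = 1 ∧ ¬ Contains σ π}

/-- even-Wilf-equivalence of two patterns -/
def EvenWilf {k : ℕ} (σ τ : Fin k → ℕ) : Prop := ∀ n : ℕ, 1 ≤ n → E n σ = E n τ

theorem contains_iff_Q {n : ℕ} (π : Perm (Fin n)) :
    Contains ![2, 4, 1, 3, 5] π ↔ H49.EW.Q π := by
  constructor
  · rintro ⟨f, hf, h⟩
    refine ⟨f 0, f 1, f 2, f 3, f 4, hf (by decide), hf (by decide), hf (by decide),
      hf (by decide), (h 2 0).2 (by decide), (h 0 3).2 (by decide), (h 3 1).2 (by decide),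
      (h 1 4).2 (by decide)⟩
  · rintro ⟨a, b, c, d, e, hab, hbc, hcd, hde, h1, h2, h3, h4⟩
    refine ⟨![a, b, c, d, e], ?_, ?_⟩
    · rw [Fin.strictMono_iff_lt_succ]
      intro i
      fin_cases i
      · exact hab
      · exact hbc
      · exact hcd
      · exact hde
    · intro x y
      rw [Fin.lt_def] at h1 h2 h3 h4 ⊢
      fin_cases x <;> fin_cases y <;> simp <;> omega

theorem contains_compl {n : ℕ} (π : Perm (Fin n)) :
    Contains ![4, 2, 5, 3, 1] π ↔ Contains ![2, 4, 1, 3, 5] (Fin.revPerm * π) := by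
  have key : ∀ a b : Fin 5, (![2, 4, 1, 3, 5] : Fin 5 → ℕ) a < (![2, 4, 1, 3, 5] : Fin 5 → ℕ) b ↔
      (![4, 2, 5, 3, 1] : Fin 5 → ℕ) b < (![4, 2, 5, 3, 1] : Fin 5 → ℕ) a := by decide
  constructor
  · rintro ⟨f, hf, h⟩
    refine ⟨f, hf, fun a b => ?_⟩
    rw [key, ← h b a, Perm.mul_apply, Perm.mul_apply, Fin.revPerm_apply, Fin.revPerm_apply,
      Fin.rev_lt_rev]
  · rintro ⟨f, hf, h⟩
    refine ⟨f, hf, fun a b => ?_⟩
    have h2 := h b a
    rw [key, Perm.mul_apply, Perm.mul_apply, Fin.revPerm_apply, Fin.revPerm_apply,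
      Fin.rev_lt_rev] at h2
    exact h2

theorem contains_rev_aux {n : ℕ} (σ τ : Fin 5 → ℕ) (hστ : ∀ a, τ (Fin.rev a) = σ a)
    (π : Perm (Fin n)) (h : Contains σ π) : Contains τ (π * Fin.revPerm) := by
  obtain ⟨f, hf, h⟩ := h
  refine ⟨fun a => Fin.rev (f (Fin.rev a)), ?_, ?_⟩
  · intro a b hab
    exact Fin.rev_lt_rev.2 (hf (Fin.rev_lt_rev.2 hab))
  · intro a b
    rw [Perm.mul_apply, Perm.mul_apply, Fin.revPerm_apply, Fin.revPerm_apply, Fin.rev_rev,
      Fin.rev_rev, h, ← hστ, ← hστ, Fin.rev_rev, Fin.rev_rev]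

theorem revPerm_mul_self (n : ℕ) : (Fin.revPerm * Fin.revPerm : Perm (Fin n)) = 1 := by
  ext i
  simp

theorem contains_rev {n : ℕ} (π : Perm (Fin n)) :
    Contains ![1, 3, 5, 2, 4] π ↔ Contains ![4, 2, 5, 3, 1] (π * Fin.revPerm) := by
  constructor
  · exact contains_rev_aux _ _ (by decide) π
  · intro h
    have h2 := contains_rev_aux ![4, 2, 5, 3, 1] ![1, 3, 5, 2, 4] (by decide) _ h
    rw [mul_assoc, revPerm_mul_self, mul_one] at h2
    exact h2

theorem sign_rev : Perm.sign (Fin.revPerm : Perm (Fin 14)) = -1 := by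
  have h : (Fin.revPerm : Perm (Fin 14)) = swap 0 13 * swap 1 12 * swap 2 11 * swap 3 10 *
      swap 4 9 * swap 5 8 * swap 6 7 := by
    decide
  rw [h]
  simp only [Perm.sign_mul]
  rw [Perm.sign_swap (by decide), Perm.sign_swap (by decide), Perm.sign_swap (by decide),
    Perm.sign_swap (by decide), Perm.sign_swap (by decide), Perm.sign_swap (by decide),
    Perm.sign_swap (by decide)]
  decide

theorem E_first : E 14 ![1, 3, 5, 2, 4]
    = Nat.card {π : Perm (Fin 14) // Perm.sign π = 1 ∧ ¬ H49.EW.Q π} := by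
  unfold E
  refine Nat.card_congr (Equiv.subtypeEquiv
    ((Equiv.mulRight (Fin.revPerm : Perm (Fin 14))).trans
      (Equiv.mulLeft (Fin.revPerm : Perm (Fin 14)))) ?_)
  intro π
  rw [Equiv.trans_apply, Equiv.coe_mulRight, Equiv.coe_mulLeft, ← contains_iff_Q,
    ← contains_compl, ← contains_rev, Perm.sign_mul, Perm.sign_mul, sign_rev]
  simp

theorem E_second : E 14 ![4, 2, 5, 3, 1]
    = Nat.card {π : Perm (Fin 14) // Perm.sign π = -1 ∧ ¬ H49.EW.Q π} := by
  unfold E
  refine Nat.card_congr (Equiv.subtypeEquiv (Equiv.mulLeft (Fin.revPerm : Perm (Fin 14))) ?_)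
  intro π
  rw [Equiv.coe_mulLeft, ← contains_iff_Q, ← contains_compl, Perm.sign_mul, sign_rev]
  constructor
  · rintro ⟨h1, h2⟩
    exact ⟨by rw [h1]; decide, h2⟩
  · rintro ⟨h1, h2⟩
    refine ⟨?_, h2⟩
    rcases Int.units_eq_one_or (Perm.sign π) with h | h
    · exact h
    · rw [h] at h1
      exact absurd h1 (by decide)

theorem E_add : E 14 ![1, 3, 5, 2, 4] + E 14 ![4, 2, 5, 3, 1] = H49.EW.A 14 := by
  classical
  rw [E_first, E_second, Nat.card_eq_fintype_card, Nat.card_eq_fintype_card,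
    Fintype.card_subtype, Fintype.card_subtype]
  unfold H49.EW.A
  rw [← Finset.card_union_of_disjoint]
  · congr 1
    · ext π
      simp only [Finset.mem_union, Finset.mem_filter, Finset.mem_univ, true_and]
      constructor
      · rintro (⟨_, h⟩ | ⟨_, h⟩) <;> exact h
      · intro h
        rcases Int.units_eq_one_or (Perm.sign π) with h1 | h1
        · exact Or.inl ⟨h1, h⟩
        · exact Or.inr ⟨h1, h⟩
  · rw [Finset.disjoint_left]
    intro π h1 h2
    simp only [Finset.mem_filter, Finset.mem_univ, true_and] at h1 h2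
    rw [h1.1] at h2
    exact absurd h2.1 (by decide)

/-- At size 14 the numbers of even permutations avoiding 13524 and avoiding 42531 differ, so not
all four conjectured even-Wilf-equivalences hold. -/
theorem result :
    E 14 ![1, 3, 5, 2, 4] ≠ E 14 ![4, 2, 5, 3, 1] ∧
    ¬ (EvenWilf ![1, 2, 3, 4, 5] ![4, 5, 3, 1, 2] ∧
       EvenWilf ![5, 4, 3, 2, 1] ![2, 1, 3, 5, 4] ∧
       EvenWilf ![1, 2, 3, 5, 4] ![4, 5, 3, 2, 1] ∧
       EvenWilf ![1, 3, 5, 2, 4] ![4, 2, 5, 3, 1]) := by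
  have h1 : E 14 ![1, 3, 5, 2, 4] ≠ E 14 ![4, 2, 5, 3, 1] := by
    intro h
    have h2 := E_add
    have h3 := H49.EW.A14_odd
    rw [h] at h2
    omega
  exact ⟨h1, fun h => h1 (h.2.2.2 14 (by norm_num))⟩

end Pool.Agent.Results.MP_b0fbe2_co.FourthEquivalenceFails
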